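import Mathlib
import Pool.Agent.K6.H2.GR.Defs
import Pool.Agent.K6.H2.GR.Main
import Pool.Agent.K6.H2.GR.DIV
import Pool.Agent.K6.H2.GR.MAT1
import Pool.Agent.K6.H2.GR.MAT2
import Pool.Agent.K6.H2.GR.GEN
import Pool.Agent.K6.H2.GR.GIRTH
import Pool.Agent.K6.H2.GR.NTA
import Pool.Agent.K6.H2.GR.NTB
import Pool.Agent.K6.H2.GR.NTC

/-!
# Explicit generators of the symmetric groups with Cayley graphs of large girth

For all large `n` two explicit permutations `gen1 n`, `gen2 n` of a set `Points n` with `n` elements
generate the symmetric group, and their Cayley graph has girth at least `κ √(n log n)`, for every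
`κ < 1 / (1 / 2 + log (1 + √2)) = 0.7238…`. The set `Points n` consists of the projective lines over the
fields with `3, 5, 7, 11, …` elements (all odd primes up to a bound, about `√(n log n)`) and of some
further points. The first permutation is `z ↦ z + 2` on the finite points of each projective line and a
cycle of the points at infinity and the further points, the second is `z ↦ z / (2 z + 1)` on each
projective line and the transposition of the last two of the further points.
-/

open Equiv Filter Real

namespace Pool.Agent.Results.MP_de9ecd_al.ExplicitGenerators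

open Pool.Agent.K6.H2.GR

/-- The points: the projective lines over the fields with `pr i` elements, `i < rk n`, and `mm n + 2`
further points. -/
abbrev Points (n : ℕ) : Type := Pt (rk n) (mm n)

/-- The first permutation. -/
noncomputable def gen1 (n : ℕ) : Perm (Points n) := a (rk n) (mm n)

/-- The second permutation. -/
noncomputable def gen2 (n : ℕ) : Perm (Points n) := b (rk n) (mm n)

lemma ev_map {G H : Type*} [Group G] [Group H] (f : G →* H) (x y : G) (s : Letter) :
    ev (f x) (f y) s = f (ev x y s) := by
  rcases s with ⟨_ | _, _ | _⟩ <;> simp [ev]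

lemma evw_map {G H : Type*} [Group G] [Group H] (f : G →* H) (x y : G) (w : List Letter) :
    evw (f x) (f y) w = f (evw x y w) := by
  induction w with
  | nil => simp [evw]
  | cons s w ih =>
    have e1 : evw (f x) (f y) (s :: w) = ev (f x) (f y) s * evw (f x) (f y) w := by simp [evw]
    have e2 : evw x y (s :: w) = ev x y s * evw x y w := by simp [evw]
    rw [e1, e2, ih, ev_map, map_mul]

/-- For all large `n` the permutations `gen1 n` and `gen2 n` of the `n` points, numbered by `1, …, n` in any
way, generate `Sym(n)`, and the girth of the Cayley graph is at least `κ √(n log n)`. -/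
theorem result (κ : ℝ) (hκ : κ < 1 / (1 / 2 + log (1 + √2))) : ∀ᶠ n : ℕ in atTop,
    Nonempty (Points n ≃ Fin n) ∧ ∀ e : Points n ≃ Fin n,
      Subgroup.closure {e.permCongr (gen1 n), e.permCongr (gen2 n)} = (⊤ : Subgroup (Perm (Fin n))) ∧
      (⌈κ * √((n : ℝ) * log n)⌉₊ : ℕ∞) ≤
        (cay {e.permCongr (gen1 n), e.permCongr (gen2 n)}).egirth := by
  have hB := t_NTB t_NTA
  filter_upwards [hB 1 one_pos, t_NTC hB κ hκ] with n hn1 hn2
  have hcard : Fintype.card (Points n) = n := by
    show Fintype.card (Pt (rk n) (mm n)) = n
    rw [card_Pt]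
    have := hn1.1
    unfold mm
    omega
  refine ⟨⟨Fintype.equivFinOfCardEq hcard⟩, fun e => ?_⟩
  have he : ∀ g : Perm (Points n), e.permCongr g = (e.permCongrHom : Perm (Points n) →* Perm (Fin n)) g :=
    fun _ => rfl
  constructor
  · have h := t_GEN (rk n) (mm n)
    have h2 := congrArg (Subgroup.map (e.permCongrHom : Perm (Points n) →* Perm (Fin n))) h
    rw [MonoidHom.map_closure, Set.image_pair, Subgroup.map_top_of_surjective] at h2
    · exact h2
    · exact e.permCongrHom.surjective
  · apply t_GIRTH
    intro w hw hr hlt
    rw [he, he, evw_map]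
    intro h1
    refine no_relation t_MAT1 t_MAT2 t_DIV (rk n) (mm n) w hw hr (hn2 _ (Nat.lt_ceil.1 hlt)) ?_
    exact e.permCongrHom.injective (h1.trans (map_one _).symm)

end Pool.Agent.Results.MP_de9ecd_al.ExplicitGenerators
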